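import Pool.Agent.helper92.TWG.ZFI
import Pool.Agent.helper1.TWG.GRO
import Pool.Agent.helper84.TWG.LOW
import Pool.Agent.helper79.TWG.SER
import Pool.Agent.helper42.TWG.EXP
import Pool.Agent.helper25.TWG.ZE1
import Pool.Agent.helper55.TWG.ZE2
import Pool.Agent.helper32.TWG.LCT
import Pool.Agent.helper83.TWG.TLS
import Pool.Agent.helper40.TWG.DET
import Pool.Agent.helper48.TWG.MER
import Pool.Agent.helper1.TWG.PPS
import Pool.Agent.helper48.TWG.WTB
import Pool.Agent.helper1.TWG.TRU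
import Pool.Agent.helper60.TWG.DEC
import Pool.Agent.helper9.TWG.RSM
import Pool.Agent.helper24.TWG.GSI
import Pool.Agent.helper1.TWG.SL1
import Pool.Agent.helper52.TWG.SQS
import Pool.Agent.helper40.TWG.SLS
import Pool.Agent.helper61.TWG.TRI
import Pool.Agent.helper61.TWG.GLM
import Pool.Agent.helper40.TWG.HLS
import Pool.Agent.helper11.TWG.CNT
import Pool.Agent.helper20.TWG.DEN0
import Pool.Agent.helper48.TWG.DENT
import Pool.Agent.helper48.TWG.DEN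
import Pool.Agent.helper48.TWG.POS
import Pool.Agent.helper48.TWG.PRI
import Pool.Agent.helper48.TWG.ONE
import Pool.Agent.helper48.TWG.ZF1
import Pool.Agent.helper32.TWG.ZF2
import Pool.Agent.helper48.TWG.ZFR
import Pool.Agent.helper40.TWG.DGS
import Pool.Agent.helper40.TWG.INV
import Pool.Agent.helper48.TWG.JAP
import Pool.Agent.helper2.TWG.SPL
import Pool.Agent.helper78.TWG.CORE
import Pool.Agent.helper40.TWG.FWB
import Pool.Agent.helper83.TWG.PRW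
import Pool.Agent.helper28.TWG.GA0
import Pool.Agent.helper79.TWG.GAL
import Pool.Agent.helper93.BA.PWA
import Pool.Agent.helper24.SK.All

/-!
# Project TW, block G: assembly of the rows
-/

set_option autoImplicit false

namespace Pool.Agent.TWG

theorem a_ZFI : ZFI_stmt := ZFI
theorem a_GRO : GRO_stmt := GRO
theorem a_LOW : LOW_stmt := LOW
theorem a_SER : SER_stmt := SER
theorem a_EXP : EXP_stmt := EXP a_ZFI a_GRO a_LOW a_SER
theorem a_ZE1 : ZE1_stmt := ZE1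
theorem a_ZE2 : ZE2_stmt := ZE2
theorem a_LCT : LCT_stmt := LCT a_ZFI a_SER a_EXP a_ZE1
theorem a_TLS : TLS_stmt := TLS
theorem a_DET : DET_stmt := DET a_ZFI a_EXP a_LCT a_TLS
theorem a_MER : MER_stmt := MER a_SER a_ZE1
theorem a_PPS : PPS_stmt := PPS
theorem a_WTB : WTB_stmt := WTB
theorem a_TRU : TRU_stmt := TRU a_SER a_MER a_PPS a_WTB a_ZE1
theorem a_DEC : DEC_stmt := DEC a_ZFI a_LCT a_DET a_TRU
theorem a_RSM : RSM_stmt := RSM
theorem a_GSI : GSI_stmt := GSI a_RSM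
theorem a_SL1 : SL1_stmt := SL1 a_GSI
theorem a_SQS : SQS_stmt := SQS
theorem a_SLS : SLS_stmt := SLS a_SL1 a_SQS
theorem a_TRI : TRI_stmt := TRI
theorem a_GLM : GLM_stmt := GLM a_TRI
theorem a_HLS : HLS_stmt := HLS a_SLS a_GLM
theorem a_CNT : CNT_stmt := CNT a_ZFI
theorem a_DEN0 : DEN0_stmt := DEN0 a_ZFI a_MER a_WTB a_DEC a_HLS a_CNT
theorem a_DENT : DENT_stmt := DENT a_ZFI a_LCT
theorem a_DEN : DEN_stmt := DEN a_ZFI a_DEN0 a_DENT
theorem a_POS : POS_stmt := POS a_SER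
theorem a_PRI : PRI_stmt := PRI a_SER
theorem a_ONE : ONE_stmt := ONE a_ZFI a_EXP
theorem a_ZF1 : ZF1_stmt := ZF1 a_ZFI a_ZE1 a_POS a_ONE
theorem a_ZF2 : ZF2_stmt := ZF2 a_ZFI a_ZE1 a_ZE2 a_POS a_PRI a_ONE
theorem a_ZFR : ZFR_stmt := ZFR a_ZFI a_ZF1 a_ZF2
theorem a_DGS : DGS_stmt := DGS a_ZFI a_DEN a_ZFR
theorem a_INV : INV_stmt := INV a_SER a_TRI
theorem a_JAP : JAP_stmt := JAP
theorem a_SPL : SPL_stmt := SPL a_ZFI a_SER a_EXP a_ZE1 a_TRI a_INV a_JAP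
theorem a_CORE : CORE_stmt := CORE a_DGS a_INV a_SPL a_ZFI
theorem a_FWB : FWB_stmt := FWB
theorem a_PRW : PRW_stmt := PRW (Pool.Agent.BA.PWA Pool.Agent.SK.sk_PNW Pool.Agent.SK.sk_WNF)
theorem a_GA0 : GA0_stmt := GA0 a_PPS a_WTB a_SER a_CORE a_FWB a_PRW
theorem a_GAL : GAL_stmt := GAL a_GA0

end Pool.Agent.TWG
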