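import Pool.Agent.helper40.TW.SpecG

/-!
# Project TW: all characters whose moduli have bounded prime factors are good

`GOODS`: for `m ≥ 1` there is `c₀ > 0` such that every primitive character modulo `q ≥ 2`, all prime factors of `q` dividing `m`, is good.
-/

set_option autoImplicit false

open Complex MeasureTheory Metric
open scoped ComplexConjugate ArithmeticFunction.vonMangoldt

namespace Pool.Agent.TWG

/-- a real character is trivial on squares -/
theorem GOODS_factor (q d e : ℕ) [NeZero q] (hd : d ∣ q) (h1 : (2 * (e : ZMod q)) = (d : ZMod q)) (h2 : q ∣ e ^ 2)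
    (χ : DirichletCharacter ℂ q) (hχ : χ ^ 2 = 1) : χ.FactorsThrough d := by
  rw [DirichletCharacter.factorsThrough_iff_ker_unitsMap hd]
  intro u hu
  rw [MonoidHom.mem_ker] at hu ⊢
  have hu1 : ((ZMod.castHom hd (ZMod d)) (u : ZMod q)) = 1 := by
    have := congrArg Units.val hu
    rw [ZMod.unitsMap_val] at this
    simpa using this
  have hu2 : (((u : ZMod q).val : ℕ) : ZMod d) = ((1 : ℕ) : ZMod d) := by
    have e1 : (ZMod.castHom hd (ZMod d)) (u : ZMod q) = (((u : ZMod q).val : ℕ) : ZMod d) := by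
      conv_lhs => rw [← ZMod.natCast_zmod_val (u : ZMod q)]
      exact map_natCast _ _
    rw [← e1, hu1, Nat.cast_one]
  have hu3 : ((d : ℕ) : ℤ) ∣ ((1 : ℕ) : ℤ) - (((u : ZMod q).val : ℕ) : ℤ) := by
    have := (ZMod.natCast_eq_natCast_iff _ _ _).1 hu2
    exact (Nat.modEq_iff_dvd.1 this)
  obtain ⟨j, hj⟩ := hu3
  have hu4 : (u : ZMod q) = 1 + ((-j : ℤ) : ZMod q) * (d : ZMod q) := by
    have e2 : (((u : ZMod q).val : ℕ) : ℤ) = 1 + (-j) * (d : ℤ) := by push_cast at hj; linarith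
    have e3 : ((((u : ZMod q).val : ℕ) : ℤ) : ZMod q) = ((1 + (-j) * (d : ℤ) : ℤ) : ZMod q) := by rw [e2]
    rw [Int.cast_natCast, ZMod.natCast_zmod_val] at e3
    rw [e3]
    push_cast
    ring
  have he : ((e : ZMod q)) ^ 2 = 0 := by
    have := (ZMod.natCast_eq_zero_iff (e ^ 2) q).2 h2
    push_cast at this
    exact this
  set v : ZMod q := 1 + ((-j : ℤ) : ZMod q) * (e : ZMod q) with hv
  have hv2 : v * v = (u : ZMod q) := by
    rw [hu4, ← h1, hv]
    linear_combination (((-j : ℤ) : ZMod q)) ^ 2 * he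
  have hvu : IsUnit v := by
    have : IsUnit (v * v) := by rw [hv2]; exact u.isUnit
    exact isUnit_of_mul_isUnit_left this
  have h3 : χ (u : ZMod q) = 1 := by
    rw [← hv2, map_mul, ← pow_two, ← MulChar.pow_apply' χ two_ne_zero, hχ, MulChar.one_apply hvu]
  ext
  rw [MulChar.coe_toUnitHom, h3]
  rfl

/-- real primitive characters have moduli dividing `8 m` -/
theorem GOODS_cond (m q : ℕ) (hm : 0 < m) (hq : 2 ≤ q) (χ : DirichletCharacter ℂ q) (hp : χ.IsPrimitive) (hχ : χ ^ 2 = 1)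
    (hS : ∀ p : ℕ, p.Prime → p ∣ q → p ∣ m) : q ≤ 8 * m := by
  haveI : NeZero q := ⟨by omega⟩
  have hno : ∀ d e : ℕ, d ∣ q → d < q → (2 * (e : ZMod q)) = (d : ZMod q) → q ∣ e ^ 2 → False := by
    intro d e hd hdq h1 h2
    have h3 := DirichletCharacter.conductor_dvd_of_mem_conductorSet (χ := χ) (GOODS_factor q d e hd h1 h2 χ hχ)
    rw [DirichletCharacter.isPrimitive_def] at hp
    rw [hp] at h3
    have hd0 : 0 < d := Nat.pos_of_dvd_of_pos hd (by omega)
    exact absurd (Nat.le_of_dvd hd0 h3) (by omega)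
  have hdvd : q ∣ 8 * m := by
    rw [← Nat.factorization_le_iff_dvd (by omega) (by omega)]
    intro p
    by_cases hpp : p.Prime
    swap
    · rw [Nat.factorization_eq_zero_of_not_prime _ hpp]; exact Nat.zero_le _
    by_cases hpq : p ∣ q
    swap
    · rw [Nat.factorization_eq_zero_of_not_dvd hpq]; exact Nat.zero_le _
    have hpm := hS p hpp hpq
    have hm1 : 1 ≤ m.factorization p := (hpp.dvd_iff_one_le_factorization (by omega)).1 hpm
    rw [Nat.factorization_mul (by norm_num) (by omega), Finsupp.add_apply]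
    rcases hpp.eq_two_or_odd' with h2 | hodd
    · subst h2
      have h8 : (8 : ℕ).factorization 2 = 3 := by
        have : (8 : ℕ) = 2 ^ 3 := by norm_num
        rw [this, Nat.Prime.factorization_pow Nat.prime_two]
        simp
      rw [h8]
      by_contra hcon
      have h4 : 4 ≤ q.factorization 2 := by omega
      have h16 : 2 ^ 4 ∣ q := (Nat.prime_two.pow_dvd_iff_le_factorization (by omega)).2 h4
      obtain ⟨t, ht⟩ := h16
      refine hno (q / 2) (q / 4) ⟨2, by omega⟩ (by omega) ?_ ⟨t, ?_⟩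
      · have : 2 * (q / 4) = q / 2 := by omega
        rw [← this]
        push_cast
        ring
      · have : q / 4 = 4 * t := by omega
        rw [this]
        nlinarith [ht]
    · by_contra hcon
      have h2 : 2 ≤ q.factorization p := by omega
      have hp2 : p ^ 2 ∣ q := (hpp.pow_dvd_iff_le_factorization (by omega)).2 h2
      obtain ⟨t, ht⟩ := hp2
      obtain ⟨s, hs⟩ := hodd
      have hp1 := hpp.two_le
      have ht0 : 0 < t := by
        rcases Nat.eq_zero_or_pos t with h | h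
        · rw [h] at ht; omega
        · exact h
      refine hno (p * t) (p * t * (s + 1)) ⟨p, by rw [ht]; ring⟩ ?_ ?_ ⟨t * (s + 1) ^ 2, by rw [ht]; ring⟩
      · rw [ht]
        nlinarith [Nat.mul_pos (by omega : 0 < p) ht0]
      · have e1 : 2 * (p * t * (s + 1)) = q + p * t := by rw [ht, hs]; ring
        have e2 : ((2 * (p * t * (s + 1)) : ℕ) : ZMod q) = ((q + p * t : ℕ) : ZMod q) := by rw [e1]
        push_cast at e2 ⊢
        rw [e2, ZMod.natCast_self, zero_add]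
  exact Nat.le_of_dvd (by omega) hdvd

/-- no zeros near `1` for one character -/
theorem GOODS_one (hZFI : ZFI_stmt) (q : ℕ) (χ : DirichletCharacter ℂ q) (hq : 2 ≤ q) (hχ : χ ≠ 1) :
    ∃ δ : ℝ, 0 < δ ∧ ∀ σ : ℝ, 1 - δ < σ → LL χ (σ : ℂ) ≠ 0 := by
  obtain ⟨hd, hnz, -⟩ := hZFI q χ hq hχ
  have hc : Continuous fun σ : ℝ => LL χ (σ : ℂ) := hd.continuous.comp Complex.continuous_ofReal
  have h1 : LL χ ((1 : ℝ) : ℂ) ≠ 0 := hnz _ (by simp)
  have h2 : ∀ᶠ σ : ℝ in nhds 1, LL χ (σ : ℂ) ≠ 0 := hc.continuousAt.eventually_ne h1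
  obtain ⟨δ, hδ, h3⟩ := Metric.eventually_nhds_iff.1 h2
  refine ⟨δ, hδ, fun σ hσ => ?_⟩
  rcases le_or_gt 1 σ with h | h
  · exact hnz _ (by simpa using h)
  · refine h3 ?_
    rw [Real.dist_eq, abs_of_neg (by linarith)]
    linarith

/-- **Corollary (S)**: characters whose moduli have only prime factors dividing `m` are good -/
theorem GOODS (hZFI : ZFI_stmt) (m : ℕ) (hm : 0 < m) : ∃ c₀ : ℝ, 0 < c₀ ∧ ∀ (q : ℕ) (χ : DirichletCharacter ℂ q), 2 ≤ q →
    χ.IsPrimitive → (∀ p : ℕ, p.Prime → p ∣ q → p ∣ m) → Good c₀ χ := by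
  classical
  -- for every modulus `q` a common `δ`
  have hq : ∀ q : ℕ, ∃ δ : ℝ, 0 < δ ∧ ∀ χ : DirichletCharacter ℂ q, 2 ≤ q → χ ≠ 1 → ∀ σ : ℝ, 1 - δ < σ → LL χ (σ : ℂ) ≠ 0 := by
    intro q
    rcases Nat.lt_or_ge q 2 with h | h
    · exact ⟨1, one_pos, fun χ h2 => absurd h2 (by omega)⟩
    haveI : NeZero q := ⟨by omega⟩
    have h1 : ∀ χ : DirichletCharacter ℂ q, ∃ δ : ℝ, 0 < δ ∧ (χ ≠ 1 → ∀ σ : ℝ, 1 - δ < σ → LL χ (σ : ℂ) ≠ 0) := by
      intro χ
      by_cases hχ : χ = 1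
      · exact ⟨1, one_pos, fun h => absurd hχ h⟩
      · obtain ⟨δ, hδ, h2⟩ := GOODS_one hZFI q χ h hχ
        exact ⟨δ, hδ, fun _ => h2⟩
    choose δ hδ h2 using h1
    obtain ⟨δ₀, hδ₀, h3⟩ : ∃ δ₀ : ℝ, 0 < δ₀ ∧ ∀ χ : DirichletCharacter ℂ q, δ₀ ≤ δ χ := by
      have hne : (Finset.univ : Finset (DirichletCharacter ℂ q)).Nonempty := ⟨1, Finset.mem_univ _⟩
      exact ⟨Finset.univ.inf' hne δ, (Finset.lt_inf'_iff hne).2 (fun χ _ => hδ χ), fun χ => Finset.inf'_le _ (Finset.mem_univ χ)⟩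
    exact ⟨δ₀, hδ₀, fun χ _ hχ σ hσ => h2 χ hχ σ (by linarith [h3 χ])⟩
  choose δ hδ hnz using hq
  have hex : ∃ δ₀ : ℝ, 0 < δ₀ ∧ ∀ q ∈ Finset.range (8 * m + 1), δ₀ ≤ δ q := by
    have hne : (Finset.range (8 * m + 1)).Nonempty := ⟨0, by simp⟩
    exact ⟨(Finset.range (8 * m + 1)).inf' hne δ, (Finset.lt_inf'_iff hne).2 (fun q _ => hδ q), fun q hq => Finset.inf'_le _ hq⟩
  obtain ⟨δ₀, hδ₀, hle⟩ := hex
  have hlog2 : 0 < Real.log 2 := Real.log_pos (by norm_num)
  refine ⟨δ₀ * Real.log 2, mul_pos hδ₀ hlog2, ?_⟩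
  intro q χ hq2 hprim hS
  by_cases h2 : χ ^ 2 = 1
  swap
  · exact Or.inl h2
  right
  intro σ hσ
  have hqm := GOODS_cond m q hm hq2 χ hprim h2 hS
  have hχ1 : χ ≠ 1 := by
    intro h
    haveI : NeZero q := ⟨by omega⟩
    rw [DirichletCharacter.isPrimitive_def, h, DirichletCharacter.conductor_one] at hprim
    omega
  refine hnz q χ hq2 hχ1 σ ?_
  have hlogq : Real.log 2 ≤ Real.log q := Real.log_le_log (by norm_num) (by exact_mod_cast hq2)
  have h3 : δ₀ * Real.log 2 / Real.log q ≤ δ₀ := by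
    rw [div_le_iff₀ (by linarith)]
    exact mul_le_mul_of_nonneg_left hlogq hδ₀.le
  have h4 := hle q (Finset.mem_range.2 (by omega))
  linarith

end Pool.Agent.TWG
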